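import Pool.Agent.J4H3.EQ.Stm

/-!
# Project EQ, piece AVG: the integral of `u - log |f|` over a disc
-/

set_option autoImplicit false

namespace Pool.Agent.J4H18.EQ

open Complex MeasureTheory Filter Topology Set
open Pool.Agent.J4H3.EQ (S_JN S_AVG J_AVG)

noncomputable section

/-- the zeros in a closed disc are finitely many -/
theorem fin_zeros (f : ℂ → ℂ) (hf : Differentiable ℂ f) (g : ℂ) (hg : f g ≠ 0) (r : ℝ) :
    {w : ℂ | f w = 0 ∧ w ∈ Metric.closedBall g r}.Finite := by
  by_contra h
  have hinf : {w : ℂ | f w = 0 ∧ w ∈ Metric.closedBall g r}.Infinite := h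
  obtain ⟨z, _, hacc⟩ := hinf.exists_accPt_of_subset_isCompact (isCompact_closedBall g r) (fun w hw => hw.2)
  have han : AnalyticOnNhd ℂ f Set.univ := hf.differentiableOn.analyticOnNhd isOpen_univ
  have hfr : ∃ᶠ y in 𝓝[≠] z, f y = 0 := by
    rw [accPt_iff_frequently_nhdsNE] at hacc
    exact hacc.mono (fun y hy => hy.1)
  exact hg (han.eqOn_zero_of_preconnected_of_frequently_eq_zero isPreconnected_univ (mem_univ z) hfr (mem_univ g))

/-- (JN) gives the mean value inequality -/
theorem mean_ge (hJ : S_JN) (f : ℂ → ℂ) (hf : Differentiable ℂ f) (g : ℂ) (hg : f g ≠ 0) (s : ℝ) (hs : 0 < s) :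
    Real.log ‖f g‖ ≤ Real.circleAverage (fun w => Real.log ‖f w‖) g s := by
  have hfin := fin_zeros f hf g hg s
  rw [hJ f g s hfin.toFinset hf hs hg (fun w hw hw2 => by
    rw [Set.Finite.mem_toFinset]
    exact ⟨hw, by rw [Metric.mem_closedBall, dist_eq_norm]; exact hw2.le⟩)]
  have : 0 ≤ ∑ w ∈ hfin.toFinset, (analyticOrderNatAt f w : ℝ) * Real.posLog (s / ‖w - g‖) :=
    Finset.sum_nonneg (fun w _ => mul_nonneg (Nat.cast_nonneg _) Real.posLog_nonneg)
  linarith

/-- one circle -/
theorem circ (hJ : S_JN) (f : ℂ → ℂ) (u : ℂ → ℝ) (hf : Differentiable ℂ f) (hu : Continuous u) (g : ℂ) (hg : f g ≠ 0)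
    (s B : ℝ) (hs : 0 < s) (h1 : ∀ w, ‖w - g‖ = s → f w ≠ 0 → Real.log ‖f w‖ ≤ u w)
    (h2 : Real.circleAverage u g s - Real.log ‖f g‖ ≤ B) :
    ∫⁻ θ in Set.Ioo (-Real.pi) Real.pi, ENNReal.ofReal (u (circleMap g s θ) - Real.log ‖f (circleMap g s θ)‖) ≤
      ENNReal.ofReal (2 * Real.pi * B) := by
  have hpi := Real.pi_pos
  have hui : CircleIntegrable u g s := hu.continuousOn.circleIntegrable'
  have hfi : CircleIntegrable (fun w => Real.log ‖f w‖) g s := by
    apply MeromorphicOn.circleIntegrable_log_norm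
    intro z _
    exact (hf.analyticAt z).meromorphicAt
  have hper : Function.Periodic (fun θ => u (circleMap g s θ) - Real.log ‖f (circleMap g s θ)‖) (2 * Real.pi) := by
    intro θ
    simp only [periodic_circleMap g s θ]
  have hint0 : IntervalIntegrable (fun θ => u (circleMap g s θ) - Real.log ‖f (circleMap g s θ)‖) volume 0 (2 * Real.pi) :=
    hui.sub hfi
  have hint : IntervalIntegrable (fun θ => u (circleMap g s θ) - Real.log ‖f (circleMap g s θ)‖) volume (-Real.pi) Real.pi :=
    hper.intervalIntegrable₀ (by positivity) hint0 _ _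
  rw [intervalIntegrable_iff_integrableOn_Ioc_of_le (by linarith)] at hint
  have hnn : 0 ≤ᵐ[volume.restrict (Set.Ioc (-Real.pi) Real.pi)]
      (fun θ => u (circleMap g s θ) - Real.log ‖f (circleMap g s θ)‖) := by
    have hfin := fin_zeros f hf g hg s
    have hc := (hfin.countable.preimage_circleMap g hs.ne').measure_zero volume
    have hae : ∀ᵐ θ ∂(volume : Measure ℝ), θ ∉ circleMap g s ⁻¹' {w : ℂ | f w = 0 ∧ w ∈ Metric.closedBall g s} :=
      measure_eq_zero_iff_ae_notMem.1 hc
    filter_upwards [ae_restrict_of_ae hae] with θ hθ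
    have hn : ‖circleMap g s θ - g‖ = s := by
      have := circleMap_mem_sphere g hs.le θ
      rwa [mem_sphere_iff_norm] at this
    have hne : f (circleMap g s θ) ≠ 0 := by
      intro h0
      apply hθ
      show f (circleMap g s θ) = 0 ∧ circleMap g s θ ∈ Metric.closedBall g s
      exact ⟨h0, by rw [Metric.mem_closedBall, dist_eq_norm]; exact hn.le⟩
    have := h1 _ hn hne
    simp only [Pi.zero_apply]
    linarith
  refine le_trans (lintegral_mono_set Ioo_subset_Ioc_self) ?_
  rw [← ofReal_integral_eq_lintegral_ofReal hint hnn]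
  apply ENNReal.ofReal_le_ofReal
  rw [← intervalIntegral.integral_of_le (by linarith)]
  have e0 : ∫ θ in (-Real.pi)..Real.pi, (u (circleMap g s θ) - Real.log ‖f (circleMap g s θ)‖) =
      ∫ θ in (0 : ℝ)..2 * Real.pi, (u (circleMap g s θ) - Real.log ‖f (circleMap g s θ)‖) := by
    have := hper.intervalIntegral_add_eq (-Real.pi) 0
    rw [zero_add, show -Real.pi + 2 * Real.pi = Real.pi by ring] at this
    exact this
  rw [e0, intervalIntegral.integral_sub hui hfi]
  have e1 : ∫ θ in (0 : ℝ)..2 * Real.pi, u (circleMap g s θ) = 2 * Real.pi * Real.circleAverage u g s := by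
    rw [Real.circleAverage_def, smul_eq_mul]
    field_simp
  have e2 : ∫ θ in (0 : ℝ)..2 * Real.pi, Real.log ‖f (circleMap g s θ)‖ =
      2 * Real.pi * Real.circleAverage (fun w => Real.log ‖f w‖) g s := by
    rw [Real.circleAverage_def, smul_eq_mul]
    field_simp
  have h3 := mean_ge hJ f hf g hg s hs
  rw [e1, e2]
  nlinarith [mul_pos two_pos hpi]

theorem polar_eq (g : ℂ) (p : ℝ × ℝ) : Complex.polarCoord.symm p + g = circleMap g p.1 p.2 := by
  rw [Complex.polarCoord_symm_apply, circleMap, Complex.exp_mul_I, add_comm, Complex.ofReal_cos, Complex.ofReal_sin]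

/-- (AVG) polar coordinates and (JN) on each circle -/
theorem t_AVG : J_AVG := by
  intro hJ f u g R B hf hu hg hR hB h1 h2
  have hpi := Real.pi_pos
  set D : ℂ → ENNReal := fun w => ENNReal.ofReal (u w - Real.log ‖f w‖) with hD
  have hDm : Measurable D := by
    apply Measurable.ennreal_ofReal
    exact hu.measurable.sub (Real.measurable_log.comp hf.continuous.measurable.norm)
  set F : ℂ → ENNReal := (Metric.closedBall g R).indicator D with hF
  have hFm : Measurable F := hDm.indicator Metric.isClosed_closedBall.measurableSet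
  have step1 : ∫⁻ w in Metric.closedBall g R, D w = ∫⁻ p in _root_.polarCoord.target, ENNReal.ofReal p.1 • F (circleMap g p.1 p.2) := by
    rw [← lintegral_indicator Metric.isClosed_closedBall.measurableSet]
    rw [← lintegral_add_right_eq_self (fun w => (Metric.closedBall g R).indicator D w) g]
    rw [← Complex.lintegral_comp_polarCoord_symm]
    simp only [polar_eq]
    rfl
  rw [step1, polarCoord_target]
  rw [Measure.volume_eq_prod, ← Measure.prod_restrict]
  have hm2 : Measurable (fun p : ℝ × ℝ => ENNReal.ofReal p.1 • F (circleMap g p.1 p.2)) := by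
    apply Measurable.smul measurable_fst.ennreal_ofReal
    apply hFm.comp
    have : Continuous (fun p : ℝ × ℝ => circleMap g p.1 p.2) := by
      unfold circleMap
      fun_prop
    exact this.measurable
  rw [lintegral_prod _ hm2.aemeasurable]
  have step2 : ∀ s ∈ Set.Ioi (0 : ℝ), (∫⁻ θ in Set.Ioo (-Real.pi) Real.pi, ENNReal.ofReal s • F (circleMap g s θ)) ≤
      (Set.Ioc (0 : ℝ) R).indicator (fun s => ENNReal.ofReal s * ENNReal.ofReal (2 * Real.pi * B)) s := by
    intro s hs
    have hs0 : (0 : ℝ) < s := hs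
    have hn : ∀ θ, ‖circleMap g s θ - g‖ = s := by
      intro θ
      have := circleMap_mem_sphere g hs0.le θ
      rwa [mem_sphere_iff_norm] at this
    by_cases hsR : s ≤ R
    · rw [Set.indicator_of_mem (show s ∈ Set.Ioc (0 : ℝ) R from ⟨hs0, hsR⟩)]
      have e : ∀ θ, F (circleMap g s θ) = D (circleMap g s θ) := by
        intro θ
        rw [hF, Set.indicator_of_mem]
        rw [Metric.mem_closedBall, dist_eq_norm, hn θ]
        exact hsR
      simp only [e, smul_eq_mul]
      rw [lintegral_const_mul' _ _ ENNReal.ofReal_ne_top]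
      gcongr
      exact circ hJ f u hf hu g hg s B hs0 (fun w hw hne => h1 w (hw.le.trans hsR) hne) (h2 s hs0 hsR)
    · have e : ∀ θ, F (circleMap g s θ) = 0 := by
        intro θ
        rw [hF, Set.indicator_of_notMem]
        rw [Metric.mem_closedBall, dist_eq_norm, hn θ]
        exact hsR
      simp only [e, smul_zero, lintegral_zero]
      exact zero_le
  calc ∫⁻ s in Set.Ioi (0 : ℝ), ∫⁻ θ in Set.Ioo (-Real.pi) Real.pi, ENNReal.ofReal (s, θ).1 • F (circleMap g (s, θ).1 (s, θ).2)
      ≤ ∫⁻ s in Set.Ioi (0 : ℝ), (Set.Ioc (0 : ℝ) R).indicator (fun s => ENNReal.ofReal s * ENNReal.ofReal (2 * Real.pi * B)) s :=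
        setLIntegral_mono' measurableSet_Ioi step2
    _ ≤ ∫⁻ s, (Set.Ioc (0 : ℝ) R).indicator (fun s => ENNReal.ofReal s * ENNReal.ofReal (2 * Real.pi * B)) s :=
        setLIntegral_le_lintegral _ _
    _ = ∫⁻ s in Set.Ioc (0 : ℝ) R, ENNReal.ofReal s * ENNReal.ofReal (2 * Real.pi * B) := by
        rw [lintegral_indicator measurableSet_Ioc]
    _ = (∫⁻ s in Set.Ioc (0 : ℝ) R, ENNReal.ofReal s) * ENNReal.ofReal (2 * Real.pi * B) := by
        rw [lintegral_mul_const' _ _ ENNReal.ofReal_ne_top]
    _ = ENNReal.ofReal (R ^ 2 / 2) * ENNReal.ofReal (2 * Real.pi * B) := by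
        congr 1
        have hi : IntegrableOn (fun s : ℝ => s) (Set.Ioc 0 R) volume :=
          (continuous_id.integrableOn_Icc (a := 0) (b := R)).mono_set Ioc_subset_Icc_self
        rw [← ofReal_integral_eq_lintegral_ofReal hi]
        · rw [← intervalIntegral.integral_of_le hR.le, integral_id]
          congr 1
          ring
        · exact (ae_restrict_iff' measurableSet_Ioc).2 (Filter.Eventually.of_forall (fun s hs => hs.1.le))
    _ = ENNReal.ofReal (Real.pi * R ^ 2 * B) := by
        rw [← ENNReal.ofReal_mul (by positivity)]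
        congr 1
        ring


end

end Pool.Agent.J4H18.EQ
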